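import Pool.Agent.Helper14.W5.StC
import Pool.Agent.Helper78.W3.StC

/-!
# Module DimK of project W5: dimensions by fixed points
-/

set_option autoImplicit false

open Pool.Agent.Helper14.W5

namespace Pool.Agent.Helper7.W5

/-- the translation by `c` times `5^(m-1)` -/
private def T (m : ℕ) (c : ZMod 5) : ZMod (5 ^ m) := ((c.val : ℕ) : ZMod (5 ^ m)) * 5 ^ (m - 1)

private lemma h5 (m : ℕ) : (5 : ZMod (5 ^ m)) ^ m = 0 := by
  have := ZMod.natCast_self (5 ^ m)
  push_cast at this
  exact this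

private lemma h5t (m : ℕ) (hm : 1 ≤ m) : (5 : ZMod (5 ^ m)) * 5 ^ (m - 1) = 0 := by
  rw [← pow_succ', Nat.sub_add_cancel hm]
  exact h5 m

private lemma T_zero (m : ℕ) : T m 0 = 0 := by simp [T]

private lemma T_add (m : ℕ) (hm : 1 ≤ m) (a b : ZMod 5) : T m (a + b) = T m a + T m b := by
  unfold T
  rw [ZMod.val_add]
  have h1 := Nat.mod_add_div (a.val + b.val) 5
  have h2 : (((a.val + b.val) % 5 + 5 * ((a.val + b.val) / 5) : ℕ) : ZMod (5 ^ m)) =
      ((a.val + b.val : ℕ) : ZMod (5 ^ m)) := by rw [h1]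
  push_cast at h2
  have h3 := h5t m hm
  linear_combination (5 : ZMod (5 ^ m)) ^ (m - 1) * h2 -
    (((a.val + b.val) / 5 : ℕ) : ZMod (5 ^ m)) * h3

private lemma T_neg (m : ℕ) (hm : 1 ≤ m) (a : ZMod 5) : T m (-a) = -T m a := by
  have h := T_add m hm (-a) a
  rw [neg_add_cancel, T_zero] at h
  linear_combination -h

private lemma T_inj (m : ℕ) (hm : 1 ≤ m) (a : ZMod 5) (h : T m a = 0) : a = 0 := by
  have h4 : ((a.val * 5 ^ (m - 1) : ℕ) : ZMod (5 ^ m)) = 0 := by
    push_cast
    exact h
  rw [ZMod.natCast_eq_zero_iff] at h4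
  have h6 : 5 ^ m = 5 * 5 ^ (m - 1) := by
    rw [← pow_succ', Nat.sub_add_cancel hm]
  rw [h6] at h4
  have h7 : 5 ∣ a.val := Nat.dvd_of_mul_dvd_mul_right (by positivity) h4
  have h8 : a.val < 5 := ZMod.val_lt a
  have h9 : a.val = 0 := Nat.eq_zero_of_dvd_of_lt h7 h8
  exact (ZMod.val_eq_zero a).1 h9

/-- the translations of the plane -/
private def tau {m : ℕ} (c : ZMod 5 × ZMod 5) (p : Pt m) : Pt m := (p.1 + T m c.1, p.2 + T m c.2)

private lemma tau_tau {m : ℕ} (hm : 1 ≤ m) (c d : ZMod 5 × ZMod 5) (p : Pt m) :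
    tau c (tau d p) = tau (c + d) p := by
  unfold tau
  simp only [Prod.fst_add, Prod.snd_add, T_add m hm]
  refine Prod.ext ?_ ?_ <;> simp only <;> ring

/-- the weights -/
private noncomputable def w (c : ZMod 5) : ℂ := (if c = 0 then 1 else 0) - 1 / 5

private noncomputable def W (c : ZMod 5 × ZMod 5) : ℂ := w c.1 * w c.2

private lemma w_neg (c : ZMod 5) : w (-c) = w c := by simp [w]

private lemma sum_w : ∑ c : ZMod 5, w c = 0 := by
  simp only [w, Finset.sum_sub_distrib, Finset.sum_ite_eq', Finset.mem_univ, if_true,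
    Finset.sum_const, Finset.card_univ, ZMod.card]
  norm_num

private lemma sum_ww : ∑ c : ZMod 5, w c * w c = 4 / 5 := by
  have h : ∀ c : ZMod 5, w c * w c = (if c = 0 then (3 / 5 : ℂ) else 0) + 1 / 25 := by
    intro c
    unfold w
    split_ifs <;> norm_num
  simp only [h, Finset.sum_add_distrib, Finset.sum_ite_eq', Finset.mem_univ, if_true,
    Finset.sum_const, Finset.card_univ, ZMod.card]
  norm_num

/-- the average -/
private noncomputable def Av {m : ℕ} (G : Pt m → ℂ) (p : Pt m) : ℂ :=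
  ∑ c : ZMod 5 × ZMod 5, W c * G (tau c p)

private lemma sum5 {m : ℕ} (f : ZMod (5 ^ m) → ℂ) (x : ZMod (5 ^ m)) :
    ∑ i ∈ Finset.range 5, f (x + i * 5 ^ (m - 1)) = ∑ c : ZMod 5, f (x + T m c) := by
  rw [Finset.sum_range]
  rfl

private lemma mem_anti {m : ℕ} (F : Pt m → ℂ) : F ∈ anti5 m ↔ ∀ p : Pt m,
    ∑ c : ZMod 5, F (tau (c, 0) p) = 0 ∧ ∑ c : ZMod 5, F (tau (0, c) p) = 0 := by
  have e1 : ∀ p : Pt m, ∑ i ∈ Finset.range 5, F (p.1 + i * 5 ^ (m - 1), p.2) =
      ∑ c : ZMod 5, F (tau (c, 0) p) := by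
    intro p
    rw [sum5 (fun x => F (x, p.2)) p.1]
    simp only [tau, T_zero, add_zero]
  have e2 : ∀ p : Pt m, ∑ i ∈ Finset.range 5, F (p.1, p.2 + i * 5 ^ (m - 1)) =
      ∑ c : ZMod 5, F (tau (0, c) p) := by
    intro p
    rw [sum5 (fun x => F (p.1, x)) p.2]
    simp only [tau, T_zero, add_zero]
  change (∀ p : Pt m, ∑ i ∈ Finset.range 5, F (p.1 + i * 5 ^ (m - 1), p.2) = 0 ∧
    ∑ i ∈ Finset.range 5, F (p.1, p.2 + i * 5 ^ (m - 1)) = 0) ↔ _
  simp only [e1, e2]

private lemma Av_anti {m : ℕ} (hm : 1 ≤ m) (G : Pt m → ℂ) : Av G ∈ anti5 m := by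
  rw [mem_anti]
  intro p
  constructor
  · have h1 : ∀ d : ZMod 5, Av G (tau (d, 0) p) =
        ∑ c : ZMod 5 × ZMod 5, W (c - (d, 0)) * G (tau c p) := by
      intro d
      unfold Av
      rw [← Equiv.sum_comp (Equiv.subRight ((d, 0) : ZMod 5 × ZMod 5))]
      refine Finset.sum_congr rfl fun c _ => ?_
      simp only [Equiv.subRight_apply]
      rw [tau_tau hm, sub_add_cancel]
    simp only [h1]
    rw [Finset.sum_comm]
    refine Finset.sum_eq_zero fun c _ => ?_
    rw [← Finset.sum_mul]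
    have h2 : ∑ d : ZMod 5, W (c - (d, 0)) = 0 := by
      simp only [W, Prod.fst_sub, Prod.snd_sub, sub_zero]
      have h3 := Equiv.sum_comp (Equiv.subLeft c.1) w
      simp only [Equiv.subLeft_apply] at h3
      rw [← Finset.sum_mul, h3, sum_w, zero_mul]
    rw [h2, zero_mul]
  · have h1 : ∀ d : ZMod 5, Av G (tau (0, d) p) =
        ∑ c : ZMod 5 × ZMod 5, W (c - (0, d)) * G (tau c p) := by
      intro d
      unfold Av
      rw [← Equiv.sum_comp (Equiv.subRight ((0, d) : ZMod 5 × ZMod 5))]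
      refine Finset.sum_congr rfl fun c _ => ?_
      simp only [Equiv.subRight_apply]
      rw [tau_tau hm, sub_add_cancel]
    simp only [h1]
    rw [Finset.sum_comm]
    refine Finset.sum_eq_zero fun c _ => ?_
    rw [← Finset.sum_mul]
    have h2 : ∑ d : ZMod 5, W (c - (0, d)) = 0 := by
      simp only [W, Prod.fst_sub, Prod.snd_sub, sub_zero]
      have h3 := Equiv.sum_comp (Equiv.subLeft c.2) w
      simp only [Equiv.subLeft_apply] at h3
      rw [← Finset.mul_sum, h3, sum_w, mul_zero]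
    rw [h2, zero_mul]

private lemma Av_id {m : ℕ} (hm : 1 ≤ m) (G : Pt m → ℂ) (hG : G ∈ anti5 m) (p : Pt m) :
    Av G p = G p := by
  rw [mem_anti] at hG
  have hw : ∀ f : ZMod 5 → ℂ, ∑ c : ZMod 5, f c = 0 → ∑ c : ZMod 5, w c * f c = f 0 := by
    intro f hf
    simp only [w, sub_mul, ite_mul, one_mul, zero_mul, Finset.sum_sub_distrib,
      Finset.sum_ite_eq', Finset.mem_univ, if_true]
    rw [← Finset.mul_sum, hf, mul_zero, sub_zero]
  unfold Av
  rw [Fintype.sum_prod_type]
  have h1 : ∀ c1 : ZMod 5, ∑ c2 : ZMod 5, W (c1, c2) * G (tau (c1, c2) p) =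
      w c1 * G (tau (c1, 0) p) := by
    intro c1
    have h2 := hw (fun c2 => G (tau (c1, c2) p)) (by
      have h3 := (hG (tau (c1, 0) p)).2
      simp only [tau_tau hm] at h3
      simpa using h3)
    simp only [W, mul_assoc]
    rw [← Finset.mul_sum, h2]
  simp only [h1]
  rw [hw (fun c1 => G (tau (c1, 0) p)) (hG p).1]
  congr 1
  simp [tau, T_zero]

private lemma dv_T {m : ℕ} (hm : 1 ≤ m) {s : ℤ} {φ : ZMod (5 ^ m) → ZMod (5 ^ m)} (h : Dv s φ)
    (c : ZMod 5) (x : ZMod (5 ^ m)) : φ (x + T m c) = φ x + s * T m c := by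
  have h1 := h (m - 1) (x + T m c) x ⟨((c.val : ℕ) : ZMod (5 ^ m)), by unfold T; ring⟩
  rw [Nat.sub_add_cancel hm, h5, zero_dvd_iff] at h1
  linear_combination h1

private lemma law {m n : ℕ} (hm : 1 ≤ m) {r : Pt m → Pt m} (h : Ty n r) :
    ∃ L : Equiv.Perm (ZMod 5 × ZMod 5), (∀ c p, r (tau c p) = tau (L c) (r p)) ∧
      ∀ c, W (L c) = W c := by
  rcases h with ⟨_, φ, φ', hφ, hφ', hr⟩ | ⟨_, s, ψ, ψ', hs, hψ, hψ', hr⟩
  · refine ⟨Equiv.neg _, ?_, ?_⟩
    · intro c p
      rw [hr, hr]
      simp only [tau, Equiv.neg_apply, Prod.fst_neg, Prod.snd_neg, T_neg m hm, dv_T hm hφ,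
        dv_T hm hφ']
      push_cast
      refine Prod.ext ?_ ?_ <;> simp only <;> ring
    · intro c
      simp only [W, Equiv.neg_apply, Prod.fst_neg, Prod.snd_neg, w_neg]
  · rcases hs with hs | hs
    · refine ⟨Equiv.prodComm _ _, ?_, ?_⟩
      · intro c p
        rw [hr, hr]
        simp only [tau, Equiv.prodComm_apply, Prod.fst_swap, Prod.snd_swap, dv_T hm hψ,
          dv_T hm hψ', hs]
        push_cast
        refine Prod.ext ?_ ?_ <;> simp only <;> ring
      · intro c
        simp only [W, Equiv.prodComm_apply, Prod.fst_swap, Prod.snd_swap]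
        ring
    · refine ⟨(Equiv.prodComm _ _).trans (Equiv.neg _), ?_, ?_⟩
      · intro c p
        rw [hr, hr]
        simp only [tau, Equiv.trans_apply, Equiv.prodComm_apply, Equiv.neg_apply, Prod.fst_neg,
          Prod.snd_neg, Prod.fst_swap, Prod.snd_swap, T_neg m hm, dv_T hm hψ, dv_T hm hψ', hs]
        push_cast
        refine Prod.ext ?_ ?_ <;> simp only <;> ring
      · intro c
        simp only [W, Equiv.trans_apply, Equiv.prodComm_apply, Equiv.neg_apply, Prod.fst_neg,
          Prod.snd_neg, Prod.fst_swap, Prod.snd_swap, w_neg]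
        ring

private lemma Av_comp {m n : ℕ} (hm : 1 ≤ m) {r : Pt m → Pt m} (h : Ty n r) (G : Pt m → ℂ)
    (p : Pt m) : Av G (r p) = Av (fun q => G (r q)) p := by
  obtain ⟨L, hL, hW⟩ := law hm h
  unfold Av
  simp only [hL]
  rw [← Equiv.sum_comp L]
  refine Finset.sum_congr rfl fun c _ => ?_
  rw [hW]

/-! ### Fixed points -/

private lemma card_graph {Z : Type} [Fintype Z] [DecidableEq Z] (f : Z × Z → Z × Z) (g : Z → Z)
    (h : ∀ x y, f (x, y) = (x, y) ↔ x = g y) :
    (Finset.univ.filter fun p : Z × Z => f p = p).card = Fintype.card Z := by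
  have h1 : (Finset.univ.filter fun p : Z × Z => f p = p) =
      Finset.univ.image fun y : Z => (g y, y) := by
    ext ⟨x, y⟩
    simp only [Finset.mem_filter, Finset.mem_univ, true_and, Finset.mem_image, Prod.mk.injEq, h]
    constructor
    · intro hx
      exact ⟨y, hx.symm, rfl⟩
    · rintro ⟨z, hz, rfl⟩
      exact hz.symm
  rw [h1, Finset.card_image_of_injective, Finset.card_univ]
  intro y y' hy
  exact (Prod.mk.inj hy).2

private lemma card_none {Z : Type} [Fintype Z] [DecidableEq Z] (f : Z × Z → Z × Z)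
    (h : ∀ x y, f (x, y) ≠ (x, y)) :
    (Finset.univ.filter fun p : Z × Z => f p = p).card = 0 := by
  rw [Finset.card_eq_zero, Finset.filter_eq_empty_iff]
  rintro ⟨x, y⟩ _
  exact h x y

private lemma card_prod {Z : Type} [Fintype Z] [DecidableEq Z] (f : Z × Z → Z × Z)
    (A B : Finset Z) (h : ∀ x y, f (x, y) = (x, y) ↔ x ∈ A ∧ y ∈ B) :
    (Finset.univ.filter fun p : Z × Z => f p = p).card = A.card * B.card := by
  rw [← Finset.card_product]
  congr 1
  ext ⟨x, y⟩
  simp only [Finset.mem_filter, Finset.mem_univ, true_and, Finset.mem_product, h]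

private lemma count0 {m : ℕ} (hm : 1 ≤ m) :
    ∑ c : ZMod 5 × ZMod 5, W c *
      ((Finset.univ.filter fun p : Pt m => tau c p = p).card : ℂ) = 16 * 25 ^ (m - 1) := by
  have h1 : ∀ c : ZMod 5 × ZMod 5, ((Finset.univ.filter fun p : Pt m => tau c p = p).card : ℂ) =
      if c = 0 then ((5 ^ m : ℕ) : ℂ) * ((5 ^ m : ℕ) : ℂ) else 0 := by
    intro c
    split_ifs with hc
    · rw [card_prod _ Finset.univ Finset.univ, Finset.card_univ, ZMod.card]
      · push_cast; ring
      · intro x y
        simp [hc, tau, T_zero]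
    · rw [card_none]
      · simp
      · intro x y h
        apply hc
        have h2 := (Prod.mk.inj h).1
        have h3 := (Prod.mk.inj h).2
        simp only [add_eq_left] at h2 h3
        exact Prod.ext (T_inj m hm _ h2) (T_inj m hm _ h3)
  simp only [h1, mul_ite, mul_zero, Finset.sum_ite_eq', Finset.mem_univ, if_true]
  have h2 : W 0 = 16 / 25 := by
    simp only [W, w, Prod.fst_zero, Prod.snd_zero, if_true]
    norm_num
  have h3 : ((5 ^ m : ℕ) : ℂ) = 5 * 5 ^ (m - 1) := by
    rw [← pow_succ', Nat.sub_add_cancel hm]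
    push_cast
    ring
  have h4 : (25 : ℂ) ^ (m - 1) = 5 ^ (m - 1) * 5 ^ (m - 1) := by
    rw [← mul_pow]; norm_num
  rw [h2, h3, h4]
  ring

private lemma two_unit (m : ℕ) : IsUnit (2 : ZMod (5 ^ m)) := by
  have hu : IsUnit ((2 : ℕ) : ZMod (5 ^ m)) := by
    rw [ZMod.isUnit_iff_coprime]
    exact Nat.Coprime.pow_right _ (by norm_num)
  exact_mod_cast hu

private lemma inj0 {m : ℕ} {φ : ZMod (5 ^ m) → ZMod (5 ^ m)} (h : Dv (-1) φ) :
    Function.Injective fun x : ZMod (5 ^ m) => x - φ x := by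
  intro x x' hxx
  have hxx' : x - φ x = x' - φ x' := hxx
  have h1 : ∀ i : ℕ, (5 : ZMod (5 ^ m)) ^ i ∣ x - x' := by
    intro i
    induction i with
    | zero => simp
    | succ i ih =>
      have h2 := h i x x' ih
      have h3 : φ x - φ x' - ((-1 : ℤ) : ZMod (5 ^ m)) * (x - x') = 2 * (x - x') := by
        push_cast
        linear_combination -hxx'
      rw [h3] at h2
      exact (IsUnit.dvd_mul_left (two_unit m)).1 h2
  have h4 := h1 m
  rw [h5, zero_dvd_iff] at h4
  exact sub_eq_zero.1 h4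

private lemma fix0 {m : ℕ} {φ : ZMod (5 ^ m) → ZMod (5 ^ m)} (hm : 1 ≤ m) (h : Dv (-1) φ)
    (c : ZMod 5) : ∃ x0, ∀ x, φ (x + T m c) = x ↔ x ∈ ({x0} : Finset (ZMod (5 ^ m))) := by
  have hinj := inj0 h
  have hsur : Function.Surjective fun x : ZMod (5 ^ m) => x - φ x :=
    Finite.surjective_of_injective hinj
  obtain ⟨x0, hx0⟩ := hsur (-T m c)
  have hx0' : x0 - φ x0 = -T m c := hx0
  refine ⟨x0, fun x => ?_⟩
  rw [dv_T hm h, Finset.mem_singleton]
  push_cast
  constructor
  · intro hx
    apply hinj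
    show x - φ x = x0 - φ x0
    rw [hx0']
    linear_combination -hx
  · intro hx
    rw [hx]
    linear_combination -hx0'

private lemma count {m n : ℕ} (hm : 1 ≤ m) {r : Pt m → Pt m} (h : Ty n r)
    (hr2 : ∀ p, r (r p) = p) :
    ∑ c : ZMod 5 × ZMod 5, W c *
      ((Finset.univ.filter fun p : Pt m => r (tau c p) = p).card : ℂ) =
        n * (4 * 5 ^ (m - 1)) := by
  rcases h with ⟨hn, φ, φ', hφ, hφ', hr⟩ | ⟨hn, s, ψ, ψ', hs, hψ, hψ', hr⟩
  · have h1 : ∀ c : ZMod 5 × ZMod 5,
        ((Finset.univ.filter fun p : Pt m => r (tau c p) = p).card : ℂ) = 1 := by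
      intro c
      obtain ⟨x0, hx0⟩ := fix0 hm hφ c.1
      obtain ⟨y0, hy0⟩ := fix0 hm hφ' c.2
      rw [card_prod _ {x0} {y0}]
      · simp
      · intro x y
        rw [hr]
        simp only [tau, Prod.mk.injEq, hx0, hy0]
    simp only [h1, mul_one]
    rw [Fintype.sum_prod_type]
    simp only [W]
    rw [← Finset.sum_mul_sum, sum_w, hn]
    simp
  · have h1 : ∀ c : ZMod 5 × ZMod 5,
        ((Finset.univ.filter fun p : Pt m => r (tau c p) = p).card : ℂ) =
          if c.2 = -((s : ZMod 5) * c.1) then ((5 ^ m : ℕ) : ℂ) else 0 := by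
      intro c
      have hsT : (s : ZMod (5 ^ m)) * T m c.1 = T m ((s : ZMod 5) * c.1) := by
        rcases hs with hs | hs
        · rw [hs]; push_cast; rw [one_mul, one_mul]
        · rw [hs]; push_cast; rw [neg_one_mul, neg_one_mul, T_neg m hm]
      have hinv : ∀ y, ψ' (ψ y) = y := by
        intro y
        have h2 := hr2 (0, y)
        rw [hr, hr] at h2
        exact (Prod.mk.inj h2).2
      have hkey : ∀ y, ψ' (ψ (y + T m c.2) + T m c.1) = y + (T m c.2 + T m ((s : ZMod 5) * c.1)) := by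
        intro y
        rw [dv_T hm hψ', hinv, hsT]
        ring
      split_ifs with hc
      · rw [card_graph _ (fun y => ψ (y + T m c.2)), ZMod.card]
        intro x y
        rw [hr]
        simp only [tau, Prod.mk.injEq]
        constructor
        · intro h; exact h.1.symm
        · intro h
          refine ⟨h.symm, ?_⟩
          rw [h, hkey, hc, T_neg m hm]
          ring
      · rw [card_none]
        · simp
        · intro x y h
          rw [hr] at h
          simp only [tau, Prod.mk.injEq] at h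
          apply hc
          have h3 := h.2
          rw [← h.1, hkey] at h3
          have h4 : T m (c.2 + (s : ZMod 5) * c.1) = 0 := by
            rw [T_add m hm]
            linear_combination h3
          have h6 := T_inj m hm _ h4
          exact eq_neg_of_add_eq_zero_left h6
    simp only [h1]
    rw [Fintype.sum_prod_type]
    simp only [mul_ite, mul_zero, Finset.sum_ite_eq', Finset.mem_univ, if_true, W]
    have h7 : ∀ c : ZMod 5, w (-((s : ZMod 5) * c)) = w c := by
      intro c
      rw [w_neg]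
      rcases hs with hs | hs
      · rw [hs]; push_cast; rw [one_mul]
      · rw [hs]; push_cast; rw [neg_one_mul, w_neg]
    simp only [h7]
    rw [← Finset.sum_mul, sum_ww, hn]
    have h3 : ((5 ^ m : ℕ) : ℂ) = 5 * 5 ^ (m - 1) := by
      rw [← pow_succ', Nat.sub_add_cancel hm]
      push_cast
      ring
    rw [h3]
    push_cast
    ring

theorem hDimK (hq : Pool.Agent.Helper78.W3.S3Trq) : S5DimK := by
  intro m hm
  constructor
  · have key := hq (Pt m) inferInstance inferInstance (ZMod 5 × ZMod 5) inferInstance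
      (fun c p => tau c p) W (anti5 m) (fun F => Av_anti hm F) (fun F hF p => Av_id hm F hF p)
    have h2 := count0 (m := m) hm
    have h3 : (Module.finrank ℂ (anti5 m) : ℂ) = ((16 * 25 ^ (m - 1) : ℕ) : ℂ) := by
      rw [key]
      push_cast
      exact h2
    exact_mod_cast h3
  · intro r r' n n' n'' e e' hK hr hr' hrr he he'
    obtain ⟨k1, k2, k3⟩ := hK
    have he2 : (e : ℂ) * e = 1 := by
      rcases he with h | h <;> rw [h] <;> norm_num
    have he2' : (e' : ℂ) * e' = 1 := by
      rcases he' with h | h <;> rw [h] <;> norm_num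
    let g : Fin 4 → Pt m → Pt m := ![fun p => p, r, r', fun p => r (r' p)]
    let ε : Fin 4 → ℂ := ![1, e, e', e * e']
    have hval : ∀ (F : Pt m → ℂ) (p : Pt m),
        ∑ h : Fin 4 × (ZMod 5 × ZMod 5), (1 / 4 * ε h.1 * W h.2) * F (g h.1 (tau h.2 p)) =
        1 / 4 * (Av F p + e * Av (fun q => F (r q)) p + e' * Av (fun q => F (r' q)) p +
          e * e' * Av (fun q => F (r (r' q))) p) := by
      intro F p
      rw [Fintype.sum_prod_type, Fin.sum_univ_four]
      simp only [g, ε, Matrix.cons_val_zero, Matrix.cons_val_one, Matrix.cons_val]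
      simp only [Av, mul_assoc, ← Finset.mul_sum]
      ring
    have key := hq (Pt m) inferInstance inferInstance (Fin 4 × (ZMod 5 × ZMod 5)) inferInstance
      (fun h p => g h.1 (tau h.2 p)) (fun h => 1 / 4 * ε h.1 * W h.2) (inv5 r r' (e : ℂ) (e' : ℂ))
      ?_ ?_
    · have h0 := count0 (m := m) hm
      have h1 := count hm hr k1
      have h2 := count hm hr' k2
      have h3 := count hm hrr (fun p => by
        show r (r' (r (r' p))) = p
        rw [← k3, k1, k2])
      rw [Fintype.sum_prod_type, Fin.sum_univ_four] at key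
      simp only [g, ε, Matrix.cons_val_zero, Matrix.cons_val_one, Matrix.cons_val] at key
      simp only [mul_assoc, ← Finset.mul_sum] at key
      rw [h0, h1, h2, h3] at key
      have h4 : ((4 * (Module.finrank ℂ (inv5 r r' (e : ℂ) (e' : ℂ)) : ℤ) : ℤ) : ℂ) =
          ((16 * 25 ^ (m - 1) + (e * n + e' * n' + e * e' * n'') * (4 * 5 ^ (m - 1)) : ℤ) : ℂ) := by
        push_cast
        rw [key]
        ring
      exact_mod_cast h4
    · intro F
      have hP : (fun i => ∑ h : Fin 4 × (ZMod 5 × ZMod 5), (1 / 4 * ε h.1 * W h.2) *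
          F (g h.1 (tau h.2 i))) = fun p => 1 / 4 * (Av F p + e * Av (fun q => F (r q)) p +
          e' * Av (fun q => F (r' q)) p + e * e' * Av (fun q => F (r (r' q))) p) := by
        funext p
        exact hval F p
      rw [hP]
      refine ⟨?_, ?_⟩
      · have e1 : (fun p => 1 / 4 * (Av F p + e * Av (fun q => F (r q)) p +
            e' * Av (fun q => F (r' q)) p + e * e' * Av (fun q => F (r (r' q))) p)) =
            (1 / 4 : ℂ) • (Av F + (e : ℂ) • Av (fun q => F (r q)) +
              (e' : ℂ) • Av (fun q => F (r' q)) + ((e : ℂ) * e') • Av (fun q => F (r (r' q)))) := by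
          funext p
          simp only [Pi.smul_apply, Pi.add_apply, smul_eq_mul]
        rw [e1]
        refine (anti5 m).smul_mem _ ((anti5 m).add_mem ((anti5 m).add_mem ((anti5 m).add_mem
          (Av_anti hm _) ?_) ?_) ?_)
        · exact (anti5 m).smul_mem _ (Av_anti hm _)
        · exact (anti5 m).smul_mem _ (Av_anti hm _)
        · exact (anti5 m).smul_mem _ (Av_anti hm _)
      · intro p
        constructor
        · simp only [Av_comp hm hr, k1, k3]
          linear_combination (-(1 / 4 : ℂ) * (Av (fun q => F (r q)) p +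
            e' * Av (fun q => F (r' (r q))) p)) * he2
        · simp only [Av_comp hm hr', k2]
          linear_combination (-(1 / 4 : ℂ) * (Av (fun q => F (r' q)) p +
            e * Av (fun q => F (r (r' q))) p)) * he2'
    · rintro F ⟨hF, hF2⟩ p
      rw [hval]
      have a1 : (fun q => F (r q)) = (e : ℂ) • F := by
        funext q
        simp only [Pi.smul_apply, smul_eq_mul]
        exact (hF2 q).1
      have a2 : (fun q => F (r' q)) = (e' : ℂ) • F := by
        funext q
        simp only [Pi.smul_apply, smul_eq_mul]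
        exact (hF2 q).2
      have a3 : (fun q => F (r (r' q))) = ((e : ℂ) * e') • F := by
        funext q
        simp only [Pi.smul_apply, smul_eq_mul]
        rw [(hF2 (r' q)).1, (hF2 q).2]
        ring
      rw [a1, a2, a3, Av_id hm F hF, Av_id hm _ ((anti5 m).smul_mem _ hF),
        Av_id hm _ ((anti5 m).smul_mem _ hF), Av_id hm _ ((anti5 m).smul_mem _ hF)]
      simp only [Pi.smul_apply, smul_eq_mul]
      linear_combination (1 / 2 * F p) * he2 + (1 / 4 * F p * (1 + (e : ℂ) * e)) * he2'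

end Pool.Agent.Helper7.W5
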