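import Pool.Agent.Helper14.W5.StD

/-!
Module Low0 of W5: basic properties of degrees and lowering operators modulo 5.
-/

set_option autoImplicit false

namespace Pool.Agent.Helper7.W5

open Pool.Agent.Helper14.W5

private lemma five0 : (5 : ZMod 5) = 0 := by decide

private lemma dX_apply {q q' : ℕ} (F : Fn5 q q') (x : ZMod q) (y : ZMod q') :
    dX F x y = F (x + 1) y - F x y := rfl

private lemma dY_apply {q q' : ℕ} (F : Fn5 q q') (x : ZMod q) (y : ZMod q') :
    dY F x y = F x (y + 1) - F x y := rfl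

private lemma dXdY {q q' : ℕ} : (dX * dY : Module.End (ZMod 5) (Fn5 q q')) = dY * dX := by
  apply LinearMap.ext
  intro F
  funext x y
  rw [Module.End.mul_apply, Module.End.mul_apply, dX_apply, dY_apply, dY_apply, dY_apply,
    dX_apply, dX_apply]
  ring

private lemma dX_pow' {q q' : ℕ} (n : ℕ) (F : Fn5 q q') :
    (dX ^ (5 ^ n) : Module.End (ZMod 5) (Fn5 q q')) F = fun x y => F (x + 5 ^ n) y - F x y := by
  induction n generalizing F with
  | zero =>
    funext x y
    rw [pow_zero, pow_one, dX_apply, pow_zero]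
  | succ n ih =>
    have e : (5 : ℕ) ^ (n + 1) = 5 ^ n + 5 ^ n + 5 ^ n + 5 ^ n + 5 ^ n := by rw [pow_succ]; ring
    rw [e, pow_add, pow_add, pow_add, pow_add]
    simp only [Module.End.mul_apply, ih]
    funext x y
    have e2 : x + 5 ^ n + 5 ^ n + 5 ^ n + 5 ^ n + 5 ^ n = x + 5 ^ (n + 1) := by
      rw [pow_succ]; ring
    rw [e2]
    linear_combination (-F (x + 5 ^ n + 5 ^ n + 5 ^ n + 5 ^ n) y +
      2 * F (x + 5 ^ n + 5 ^ n + 5 ^ n) y - 2 * F (x + 5 ^ n + 5 ^ n) y + F (x + 5 ^ n) y) * five0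

private lemma dX_pow {q q' : ℕ} (n : ℕ) (F : Fn5 q q') (x : ZMod q) (y : ZMod q') :
    (dX ^ (5 ^ n) : Module.End (ZMod 5) (Fn5 q q')) F x y = F (x + 5 ^ n) y - F x y := by
  rw [dX_pow']

private lemma dY_pow' {q q' : ℕ} (n : ℕ) (F : Fn5 q q') :
    (dY ^ (5 ^ n) : Module.End (ZMod 5) (Fn5 q q')) F = fun x y => F x (y + 5 ^ n) - F x y := by
  induction n generalizing F with
  | zero =>
    funext x y
    rw [pow_zero, pow_one, dY_apply, pow_zero]
  | succ n ih =>
    have e : (5 : ℕ) ^ (n + 1) = 5 ^ n + 5 ^ n + 5 ^ n + 5 ^ n + 5 ^ n := by rw [pow_succ]; ring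
    rw [e, pow_add, pow_add, pow_add, pow_add]
    simp only [Module.End.mul_apply, ih]
    funext x y
    have e2 : y + 5 ^ n + 5 ^ n + 5 ^ n + 5 ^ n + 5 ^ n = y + 5 ^ (n + 1) := by
      rw [pow_succ]; ring
    rw [e2]
    linear_combination (-F x (y + 5 ^ n + 5 ^ n + 5 ^ n + 5 ^ n) +
      2 * F x (y + 5 ^ n + 5 ^ n + 5 ^ n) - 2 * F x (y + 5 ^ n + 5 ^ n) + F x (y + 5 ^ n)) * five0

private lemma dY_pow {q q' : ℕ} (n : ℕ) (F : Fn5 q q') (x : ZMod q) (y : ZMod q') :
    (dY ^ (5 ^ n) : Module.End (ZMod 5) (Fn5 q q')) F x y = F x (y + 5 ^ n) - F x y := by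
  rw [dY_pow']

private lemma cast0 (r : ℕ) : (5 : ZMod (5 ^ r)) ^ r = 0 := by
  have h := ZMod.natCast_self (5 ^ r)
  push_cast at h
  exact h

private lemma dX_zero (r s : ℕ) :
    (dX ^ (5 ^ r) : Module.End (ZMod 5) (Fn5 (5 ^ r) (5 ^ s))) = 0 := by
  apply LinearMap.ext
  intro F
  funext x y
  rw [dX_pow, cast0, add_zero]
  exact sub_self _

private lemma dY_zero (r s : ℕ) :
    (dY ^ (5 ^ s) : Module.End (ZMod 5) (Fn5 (5 ^ r) (5 ^ s))) = 0 := by
  apply LinearMap.ext
  intro F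
  funext x y
  rw [dY_pow, cast0, add_zero]
  exact sub_self _

private lemma wd_mono {q q' : ℕ} {d d' : ℤ} (h : d ≤ d') :
    (Wd5 d : Submodule (ZMod 5) (Fn5 q q')) ≤ Wd5 d' :=
  fun _ hF i j hij => hF i j (lt_of_le_of_lt h hij)

private lemma low_dX {q q' : ℕ} : Lw (dX : Module.End (ZMod 5) (Fn5 q q')) 1 := by
  intro d F hF i j hij
  have h1 : (dX ^ i * dY ^ j : Module.End (ZMod 5) (Fn5 q q')) (dX F) =
      (dX ^ (i + 1) * dY ^ j : Module.End (ZMod 5) (Fn5 q q')) F := by
    rw [← Module.End.mul_apply, mul_assoc, pow_succ, mul_assoc]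
    congr 2
    exact ((Commute.pow_right (show Commute (dX : Module.End (ZMod 5) (Fn5 q q')) dY from dXdY) j)).symm
  rw [h1]
  exact hF (i + 1) j (by push_cast; omega)

private lemma low_dY {q q' : ℕ} : Lw (dY : Module.End (ZMod 5) (Fn5 q q')) 1 := by
  intro d F hF i j hij
  have h1 : (dX ^ i * dY ^ j : Module.End (ZMod 5) (Fn5 q q')) (dY F) =
      (dX ^ i * dY ^ (j + 1) : Module.End (ZMod 5) (Fn5 q q')) F := by
    rw [← Module.End.mul_apply, mul_assoc, pow_succ]
  rw [h1]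
  exact hF i (j + 1) (by push_cast; omega)

private lemma const_x {q q' : ℕ} [NeZero q] (F : Fn5 q q') (hF : dX F = 0) (x : ZMod q)
    (y : ZMod q') : F x y = F 0 y := by
  have h : ∀ n : ℕ, F (n : ZMod q) y = F 0 y := by
    intro n
    induction n with
    | zero => rw [Nat.cast_zero]
    | succ n ih =>
      have h1 := congrFun (congrFun hF (n : ZMod q)) y
      rw [dX_apply] at h1
      rw [Nat.cast_succ, sub_eq_zero.1 h1, ih]
  have h2 := h x.val
  rwa [ZMod.natCast_zmod_val] at h2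

private lemma const_y {q q' : ℕ} [NeZero q'] (F : Fn5 q q') (hF : dY F = 0) (x : ZMod q)
    (y : ZMod q') : F x y = F x 0 := by
  have h : ∀ n : ℕ, F x (n : ZMod q') = F x 0 := by
    intro n
    induction n with
    | zero => rw [Nat.cast_zero]
    | succ n ih =>
      have h1 := congrFun (congrFun hF x) (n : ZMod q')
      rw [dY_apply] at h1
      rw [Nat.cast_succ, sub_eq_zero.1 h1, ih]
  have h2 := h y.val
  rwa [ZMod.natCast_zmod_val] at h2

theorem hLow0 : S5Low0 := by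
  intro r s
  refine ⟨?_, ?_, ?_, ?_, ?_, ?_, low_dX, low_dY, dXdY, dX_zero r s, dY_zero r s, ?_, ?_, ?_⟩
  · intro O O' k k' h h' d F hF
    have h1 := h _ _ (h' d F hF)
    rwa [show d - k' - k = d - (k + k') by ring] at h1
  · intro O O' k h h' d F hF
    exact Submodule.add_mem _ (h d F hF) (h' d F hF)
  · intro O c k h d F hF
    exact Submodule.smul_mem _ c (h d F hF)
  · intro O k k' hk h d F hF
    exact wd_mono (by omega) (h d F hF)
  · intro d d' h
    exact wd_mono h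
  · intro d F hF
    rw [sub_zero]
    exact hF
  · intro F i j hij
    have h1 : 5 ^ r ≤ i ∨ 5 ^ s ≤ j := by
      by_contra hcon
      push Not at hcon
      obtain ⟨h2, h3⟩ := hcon
      have h4 : (i : ℤ) < 5 ^ r := by exact_mod_cast h2
      have h5 : (j : ℤ) < 5 ^ s := by exact_mod_cast h3
      omega
    rcases h1 with h | h
    · have h2 : (dX ^ i : Module.End (ZMod 5) (Fn5 (5 ^ r) (5 ^ s))) = 0 := by
        obtain ⟨e, rfl⟩ := Nat.exists_eq_add_of_le h
        rw [pow_add, dX_zero, zero_mul]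
      rw [h2, zero_mul]
      rfl
    · have h2 : (dY ^ j : Module.End (ZMod 5) (Fn5 (5 ^ r) (5 ^ s))) = 0 := by
        obtain ⟨e, rfl⟩ := Nat.exists_eq_add_of_le h
        rw [pow_add, dY_zero, zero_mul]
      rw [h2, mul_zero]
      rfl
  · intro F hF x y
    have h1 := hF 1 0 (by norm_num)
    have h2 := hF 0 1 (by norm_num)
    rw [pow_one, pow_zero, mul_one] at h1
    rw [pow_one, pow_zero, one_mul] at h2
    rw [const_x F h1 x y, const_y F h2 0 y]
  · intro F hF
    have h1 := hF 0 0 (by norm_num)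
    rw [pow_zero, pow_zero, mul_one] at h1
    exact h1

end Pool.Agent.Helper7.W5
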